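import Pool.Agent.Y472.G.Defs
import Pool.Agent.Y833.CB.MyA

/-!
# CB3-G-MAINZ, part 1: auxiliary results
-/

set_option autoImplicit false

namespace Pool.Agent.Y421.CG

open Finset Filter Topology Metric
open Pool.Agent.W711.HT Pool.Agent.Y472
open Pool.Agent.Y833.CB
open Pool.Agent.Y481 (cw)
open scoped Real

/-- the conclusion of FAZ -/
def FAZc : Prop := ∀ (ls : List (ℤ × ℤ)) (m : ℤ), ls ≠ [] → ∀ ε : ℝ, 0 < ε → ∀ᶠ N : ℕ in atTop,
  (∀ p : ℕ, N / 3 ≤ p → 2 * p ≤ N →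
    ‖deriv (fun χ => wE N m χ * Tf N ls χ) (2 * π * p / N)‖ ≤
      Real.exp (N * (157 / 100 * ls.length + ε))) ∧
  ∀ χ : ℂ, |χ.re| ≤ 2 * π / 3 → |χ.im| ≤ 9 / 5 → Gap N χ →
    ‖Tf N ls χ‖ ≤ Real.exp (N * (2 * ls.length * max (s0 χ).re bet + ε)) ∧
    ‖Tf N ls χ - Tm N ls χ‖ ≤
      Real.exp (N * ((2 * ls.length - 1) * max (s0 χ).re bet + bet + ε))

theorem fazc_of (h : S_FAZ) (h1 : KBZc) (h2 : KRZc) (h3 : KAZc) (h4 : S_TFB) (h5 : S_KFF)
    (h6 : S_KF) (h7 : S_S0P) : FAZc := h h1 h2 h3 h4 h5 h6 h7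

/-- the conclusion of THZ -/
def THZc : Prop := ∀ ls : List (ℤ × ℤ), ls ≠ [] → ∀ ε : ℝ, 0 < ε →
  ∀ᶠ N : ℕ in atTop, ∀ p < N,
    (2 * p ≤ N → ‖Thi N ls p‖ ≤ Real.exp (N * (13 / 10 * ls.length + ε))) ∧
    (N ≤ 2 * p → ‖Tf N ls (2 * π * p / N) - Thi N ls p‖ ≤
      Real.exp (N * (13 / 10 * ls.length + ε)))

theorem thzc_of (h : S_THZ) (h1 : S_TB0) (h2 : S_RHO) (h3 : S_RHOT) : THZc := h h1 h2 h3

/-- the conclusion of CSZ -/
def CSZc : Prop := ∀ (k : ℕ) (m : ℤ), 1 ≤ k → 0 ≤ m → ¬ (k = 1 ∧ m = 0) → ∃ χ₀ : ℂ, Crz k m χ₀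

theorem cszc_of (h : S_CSZ) (h1 : S_S0P) : CSZc := h h1

/-- the conclusion of CTZ -/
def CTZc : Prop := ∀ (k : ℕ) (m : ℤ) (χ₀ : ℂ), 1 ≤ k → 0 ≤ m → Crz k m χ₀ →
  ∃ κ₀ δ₀ : ℝ, 0 < κ₀ ∧ 0 < δ₀ ∧ (∀ r : ℝ, 0 < r → ∃ κ δ : ℝ, 0 < κ ∧ 0 < δ ∧
    ∀ h : ℝ, |h - χ₀.im| ≤ δ → ∀ x : ℝ, |x| ≤ 2 * π / 3 → r ≤ |x - χ₀.re| →
      Wt m x h + 2 * k * max (s0 (x + h * Complex.I)).re bet ≤ Vz k m χ₀ - κ) ∧
  ∀ h : ℝ, |h - χ₀.im| ≤ δ₀ →
    (∀ x : ℝ, |x| ≤ 2 * π / 3 →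
      Wt m x h + (2 * k - 1) * max (s0 (x + h * Complex.I)).re bet + bet ≤ Vz k m χ₀ - κ₀) ∧
    ∀ x y : ℝ, 2 * π / 3 - 1 / 100 ≤ |x| → |x| ≤ 2 * π / 3 → 0 ≤ y → y ≤ h →
      Wt m x y + 2 * k * max (s0 (x + y * Complex.I)).re bet ≤ Vz k m χ₀ - κ₀

theorem ctzc_of (h : S_CTZ) (h1 : S_S0P) : CTZc := h h1

/-! ### The weight -/

lemma xy_re (x y : ℝ) : ((x : ℂ) + y * Complex.I).re = x := by simp

lemma xy_im (x y : ℝ) : ((x : ℂ) + y * Complex.I).im = y := by simp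

lemma wE_norm (N : ℕ) (m : ℤ) (x y : ℝ) : ‖wE N m (x + y * Complex.I)‖ ≤
    Real.exp |y| * Real.exp (N * (Wt m x y + y)) := by
  unfold wE Ea
  rw [norm_mul, Complex.norm_exp]
  have h1 := norm_sin_le' ((x : ℂ) + y * Complex.I)
  rw [xy_im] at h1
  have hπ' : (π : ℂ) ≠ 0 := by exact_mod_cast Real.pi_ne_zero
  have h2 : (Complex.I * ((2 * m : ℤ) : ℂ) * N * ((x : ℂ) + y * Complex.I) ^ 2 / (4 * π)).re =
      N * (Wt m x y + y) := by
    have : (Complex.I * ((2 * m : ℤ) : ℂ) * N * ((x : ℂ) + y * Complex.I) ^ 2 / (4 * π)) =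
        (((m : ℝ) * N / (2 * π) : ℝ) : ℂ) * (Complex.I * ((x : ℂ) + y * Complex.I) ^ 2) := by
      push_cast
      field_simp
      ring
    rw [this, Complex.re_ofReal_mul]
    have : (Complex.I * ((x : ℂ) + y * Complex.I) ^ 2).re = -(2 * (x * y)) := by
      rw [sq]; simp [Complex.mul_re, Complex.mul_im]; ring
    rw [this]
    unfold Wt
    field_simp
    ring
  rw [h2]
  gcongr

/-! ### Gaps -/

lemma gap_of_im {N : ℕ} {χ : ℂ} (h : 1 / (N : ℝ) ≤ |χ.im|) : Gap N χ := by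
  intro t
  refine h.trans ?_
  have h1 : (χ - 2 * π * t / N).im = χ.im := by
    have : ((2 : ℂ) * π * t / N) = ((2 * π * t / N : ℝ) : ℂ) := by push_cast; rfl
    rw [this, Complex.sub_im, Complex.ofReal_im, sub_zero]
  rw [← h1]
  exact Complex.abs_im_le_norm _

lemma gap_side {N : ℕ} (hN : 3 ≤ N) (y σ : ℝ) (hσ : |σ| = 1) :
    Gap N ((σ * RN N : ℂ) + y * Complex.I) := by
  intro t
  have hN0 : (0 : ℝ) < N := by
    have : 0 < N := by omega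
    exact_mod_cast this
  have hπ := Real.pi_gt_three
  have h1 : ((σ * RN N : ℂ) + y * Complex.I - 2 * π * t / N).re =
      σ * RN N - 2 * π * t / N := by
    have e1 : ((2 : ℂ) * π * t / N) = ((2 * π * t / N : ℝ) : ℂ) := by push_cast; rfl
    have e2 : ((σ : ℂ) * RN N) = ((σ * RN N : ℝ) : ℂ) := by push_cast; rfl
    rw [e1, e2, Complex.sub_re, Complex.ofReal_re, xy_re]
  refine le_trans ?_ (Complex.abs_re_le_norm _)
  rw [h1]
  obtain ⟨s, hs, hs1⟩ : ∃ s : ℤ, (s : ℝ) = σ ∧ (s = 1 ∨ s = -1) := by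
    rcases (abs_eq (by norm_num : (0:ℝ) ≤ 1)).1 hσ with h | h
    · exact ⟨1, by simp [h], Or.inl rfl⟩
    · exact ⟨-1, by simp [h], Or.inr rfl⟩
  have h2 : σ * RN N - 2 * π * t / N =
      π / N * ((s * (2 * ((N / 3 - 1 : ℕ) : ℤ) + 1) - 2 * t : ℤ) : ℝ) := by
    unfold RN
    rw [← hs]
    push_cast
    field_simp
  rw [h2, abs_mul, abs_of_pos (by positivity)]
  have h3 : (1 : ℤ) ≤ |s * (2 * ((N / 3 - 1 : ℕ) : ℤ) + 1) - 2 * t| := by
    apply Int.one_le_abs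
    rcases hs1 with h | h <;> subst h <;> omega
  have h4 : (1 : ℝ) ≤ |((s * (2 * ((N / 3 - 1 : ℕ) : ℤ) + 1) - 2 * t : ℤ) : ℝ)| := by
    exact_mod_cast h3
  calc 1 / (N : ℝ) ≤ π / N * 1 := by
        rw [mul_one]; gcongr; linarith
    _ ≤ _ := by gcongr

lemma RN_bd {N : ℕ} (hN : 1000 ≤ N) : 2 * π / 3 - 1 / 100 ≤ RN N ∧ RN N ≤ 2 * π / 3 := by
  have hπ := Real.pi_gt_three
  have hπ2 := Real.pi_lt_d2
  have hN0 : (1000 : ℝ) ≤ N := by exact_mod_cast hN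
  have h1 : 3 * (N / 3) ≤ N := by omega
  have h2 : N < 3 * (N / 3) + 3 := by omega
  have h1' : 3 * ((N / 3 : ℕ) : ℝ) ≤ N := by exact_mod_cast h1
  have h2' : (N : ℝ) < 3 * ((N / 3 : ℕ) : ℝ) + 3 := by exact_mod_cast h2
  have h3 : ((N / 3 - 1 : ℕ) : ℝ) = ((N / 3 : ℕ) : ℝ) - 1 := by
    rw [Nat.cast_sub (by omega)]
    simp
  unfold RN
  rw [h3]
  constructor
  · rw [le_div_iff₀ (by linarith)]
    nlinarith
  · rw [div_le_iff₀ (by linarith)]
    nlinarith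

/-! ### The remaining terms -/

lemma gN_even (N : ℕ) (ls : List (ℤ × ℤ)) (m : ℤ) (q : ℤ) : gN N ls m (-q) = gN N ls m q := by
  unfold gN
  have h1 : (fun χ => wE N m χ * Tf N ls χ) = fun χ => -(wE N m (-χ) * Tf N ls (-χ)) := by
    funext χ
    have e1 : wE N m (-χ) = -wE N m χ := by
      unfold wE Ea
      rw [Complex.sin_neg, neg_sq]
      ring
    rw [e1, Tf_congr N ls (Complex.cos_neg χ)]
    ring
  have h2 : ∀ w, deriv (fun χ => -(wE N m (-χ) * Tf N ls (-χ))) w =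
      deriv (fun χ => wE N m χ * Tf N ls χ) (-w) := by
    intro w
    have e1 : deriv (fun χ => -(wE N m (-χ) * Tf N ls (-χ))) w =
        -deriv (fun χ => wE N m (-χ) * Tf N ls (-χ)) w := deriv.fun_neg
    rw [e1]
    have e2 := deriv_comp_neg (f := fun χ => wE N m χ * Tf N ls χ) (x := w)
    rw [e2, neg_neg]
  conv_lhs => rw [h1]
  rw [h2]
  congr 1
  push_cast
  ring

/-- the terms which are not near the origin -/
lemma rest_bd {k : ℕ} {ls : List (ℤ × ℤ)} (hlen : ls.length = k) (hls : ls ≠ []) (m : ℤ)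
    (hFA : FAZc) (hTH : THZc) {V : ℝ} (hV : 157 / 100 * k + 1 / 200 ≤ V) :
    ∀ᶠ N : ℕ in atTop,
      ‖EN N ls m - ∑ q ∈ Ioo (-((N / 3 : ℕ) : ℤ)) ((N / 3 : ℕ) : ℤ), gN N ls m q‖ ≤
      Real.exp (N * (V - 1 / 800)) := by
  have hπ := Real.pi_gt_three
  have hk : 0 < (k : ℝ) := by
    have := List.length_pos_of_ne_nil hls
    rw [hlen] at this
    exact_mod_cast this
  set W : ℝ := Real.exp (1 + 2 * |(m : ℝ)|) with hW
  have hW0 : 0 < W := Real.exp_pos _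
  have hbig : ∀ᶠ N : ℕ in atTop, (2 * |(m : ℝ)| * W + 1) * N ^ 2 ≤ Real.exp (N * (1 / 800)) := by
    have hb : ∀ᶠ N : ℕ in atTop, 6 * 800 ^ 3 * (2 * |(m : ℝ)| * W + 1) ≤ (N : ℝ) :=
      tendsto_natCast_atTop_atTop.eventually_ge_atTop _
    filter_upwards [hb] with N hb
    have h2 := Real.pow_div_factorial_le_exp ((N : ℝ) * (1 / 800)) (by positivity) 3
    refine le_trans ?_ h2
    have h3 : (Nat.factorial 3 : ℝ) = 6 := by norm_num [Nat.factorial]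
    rw [h3, le_div_iff₀ (by norm_num)]
    have h4 : ((N : ℝ) * (1 / 800)) ^ 3 = N ^ 2 * (N / 800 ^ 3) := by ring
    rw [h4]
    have h5 : N ^ 2 * (6 * (2 * |(m : ℝ)| * W + 1)) ≤ (N : ℝ) ^ 2 * (N / 800 ^ 3) := by
      gcongr
      rw [le_div_iff₀ (by norm_num)]
      linarith
    linarith
  filter_upwards [hFA ls m hls (1 / 400) (by norm_num), hTH ls hls (1 / 400) (by norm_num), hbig,
    eventually_ge_atTop 6] with N hF hT hbig hN6
  obtain ⟨hF, -⟩ := hF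
  rw [hlen] at hF hT
  have hN0 : 0 < N := by omega
  have hN' : (0 : ℝ) < N := by exact_mod_cast hN0
  have hN1 : (1 : ℝ) ≤ N := by exact_mod_cast hN0
  set E1 : ℝ := Real.exp (N * (157 / 100 * k + 1 / 400)) with hE1
  have hE2 : Real.exp (N * (13 / 10 * k + 1 / 400)) ≤ E1 := by
    refine Real.exp_le_exp.2 (mul_le_mul_of_nonneg_left ?_ hN'.le)
    linarith
  set P : ℕ := N / 3 - 1 with hP
  have hP2 : 2 * P < N := by omega
  have hIoo : Ioo (-((N / 3 : ℕ) : ℤ)) ((N / 3 : ℕ) : ℤ) = Icc (-(P : ℤ)) P := by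
    ext q
    rw [mem_Ioo, mem_Icc]
    omega
  rw [hIoo, EN_eq N hN0, ← sum_filter_add_sum_filter_not (range N) (fun p => |rp N p| ≤ (P : ℤ)),
    sum_near N P hP2]
  have hdec : (∑ q ∈ Icc (-(P : ℤ)) P, gN N ls m q +
      ∑ p ∈ (range N).filter (fun p => ¬ |rp N p| ≤ (P : ℤ)),
      gN N ls m (rp N p) + ∑ p ∈ range N, rN N ls m p) -
        ∑ q ∈ Icc (-(P : ℤ)) P, gN N ls m q =
      ∑ p ∈ range N, rN N ls m p + ∑ p ∈ (range N).filter (fun p => ¬ |rp N p| ≤ (P : ℤ)),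
      gN N ls m (rp N p) := by ring
  rw [hdec]
  -- first error
  have hchi : ∀ p : ℕ, p < N → |(2 * π * p / N : ℂ).re| ≤ 2 * π ∧ |(2 * π * p / N : ℂ).im| ≤ 1 / N := by
    intro p hp
    have e2 : ((2 : ℂ) * π * p / N) = ((2 * π * p / N : ℝ) : ℂ) := by push_cast; rfl
    rw [e2, Complex.ofReal_re, Complex.ofReal_im, abs_zero]
    refine ⟨?_, by positivity⟩
    rw [abs_of_nonneg (by positivity), div_le_iff₀ hN']
    have : (p : ℝ) ≤ N := by exact_mod_cast hp.le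
    gcongr
  have hr : ∀ p ∈ range N, ‖rN N ls m p‖ ≤ 2 * |(m : ℝ)| * W * N * E1 := by
    intro p hp
    rw [mem_range] at hp
    have hwp := wE_bd N (by omega) m _ (hchi p hp).1 (hchi p hp).2
    have gen : ∀ t : ℂ, ‖t‖ ≤ Real.exp (N * (13 / 10 * k + 1 / 400)) →
        ‖2 * Complex.I * m * N * (wE N m (2 * π * p / N) * t)‖ ≤ 2 * |(m : ℝ)| * W * N * E1 := by
      intro t ht
      have e : ‖2 * Complex.I * m * N * (wE N m (2 * π * p / N) * t)‖ =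
          2 * |(m : ℝ)| * N * (‖wE N m (2 * π * p / N)‖ * ‖t‖) := by
        rw [norm_mul, norm_mul, norm_mul, norm_mul, norm_mul, Complex.norm_I, Complex.norm_intCast]
        simp
      rw [e]
      have : ‖wE N m (2 * π * p / N)‖ * ‖t‖ ≤ W * E1 :=
        mul_le_mul hwp (ht.trans hE2) (norm_nonneg _) hW0.le
      calc 2 * |(m : ℝ)| * N * (‖wE N m (2 * π * p / N)‖ * ‖t‖) ≤ 2 * |(m : ℝ)| * N * (W * E1) := by
            gcongr
        _ = _ := by ring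
    unfold rN
    split_ifs with h
    · rw [norm_neg]
      exact gen _ ((hT p hp).1 (by omega))
    · exact gen _ ((hT p hp).2 (by omega))
  have hs1 : ‖∑ p ∈ range N, rN N ls m p‖ ≤ 2 * |(m : ℝ)| * W * N ^ 2 * E1 := by
    refine (norm_sum_le_of_le _ hr).trans ?_
    rw [sum_const, card_range, nsmul_eq_mul]
    apply le_of_eq
    ring
  -- second error
  have hs2 : ‖∑ p ∈ (range N).filter (fun p => ¬ |rp N p| ≤ (P : ℤ)), gN N ls m (rp N p)‖ ≤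
      N ^ 2 * E1 := by
    have hg : ∀ p ∈ (range N).filter (fun p => ¬ |rp N p| ≤ (P : ℤ)), ‖gN N ls m (rp N p)‖ ≤
        E1 := by
      intro p hp
      rw [mem_filter, mem_range] at hp
      obtain ⟨hp1, hp2⟩ := hp
      have hq1 : (P : ℤ) + 1 ≤ |rp N p| := by omega
      have hq2 : 2 * |rp N p| ≤ N := by
        unfold rp
        split_ifs with h
        · rw [abs_of_nonneg (by omega)]; omega
        · rw [abs_of_neg (by omega)]; omega
      have key : ∀ q : ℕ, N / 3 ≤ q → 2 * q ≤ N → ‖gN N ls m (q : ℤ)‖ ≤ E1 := by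
        intro q h1 h2
        unfold gN
        rw [Int.cast_natCast]
        exact hF q h1 h2
      obtain ⟨q, hq | hq⟩ := (rp N p).eq_nat_or_neg
      · rw [hq]
        rw [hq, Nat.abs_cast] at hq1 hq2
        exact key q (by omega) (by omega)
      · rw [hq, gN_even]
        rw [hq, abs_neg, Nat.abs_cast] at hq1 hq2
        exact key q (by omega) (by omega)
    refine (norm_sum_le_of_le _ hg).trans ?_
    rw [sum_const, nsmul_eq_mul]
    have hcard : (((range N).filter (fun p => ¬ |rp N p| ≤ (P : ℤ))).card : ℝ) ≤ N := by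
      have := card_filter_le (range N) (fun p => ¬ |rp N p| ≤ (P : ℤ))
      rw [card_range] at this
      exact_mod_cast this
    have hNN : (N : ℝ) ≤ N ^ 2 := by nlinarith
    gcongr
    exact hcard.trans hNN
  refine (norm_add_le _ _).trans ((add_le_add hs1 hs2).trans ?_)
  have e1 : 2 * |(m : ℝ)| * W * N ^ 2 * E1 + N ^ 2 * E1 =
    ((2 * |(m : ℝ)| * W + 1) * N ^ 2) * E1 := by ring
  rw [e1]
  calc (2 * |(m : ℝ)| * W + 1) * N ^ 2 * E1 ≤ Real.exp (N * (1 / 800)) * E1 := by gcongr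
    _ = Real.exp (N * (157 / 100 * k + 1 / 400 + 1 / 800)) := by
        rw [hE1, ← Real.exp_add]; congr 1; ring
    _ ≤ _ := by
        refine Real.exp_le_exp.2 (mul_le_mul_of_nonneg_left ?_ hN'.le)
        linarith

end Pool.Agent.Y421.CG
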